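import Pool.Agent.Helper10.PC.Defs
import Pool.Agent.Helper13.RM.CList
import Pool.Agent.Helper13.RM.CApp

/-!
# Curves and one-dimensional moduli spaces of planar configurations
-/

set_option autoImplicit false

open CategoryTheory CategoryTheory.Limits AlgebraicGeometry TopologicalSpace Pool.Agent.Y116.UV
  Pool.Agent.Q193.LT Pool.Agent.Q282.UK Pool.Agent.Z125.UN Pool.Agent.Helper3.GU
  Pool.Agent.Helper13.RM

universe v u

namespace Pool.Agent.Helper10.PC

/-- The dimension of a proper closed subset of an irreducible space of dimension at most one. -/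
lemma krull_proper {Z X : Type*} [TopologicalSpace Z] [TopologicalSpace X] [IrreducibleSpace X]
    {f : Z → X} (hf : Topology.IsClosedEmbedding f) (hr : Set.range f ≠ Set.univ)
    (h1 : topologicalKrullDim X ≤ 1) : topologicalKrullDim Z ≤ 0 := by
  refine Order.krullDim_nonpos_iff_forall_isMin.mpr fun a b hb => ?_
  by_contra hab
  have hlt : b < a := lt_of_le_not_ge hb hab
  have hm := IrreducibleCloseds.map_strictMono_of_isInducing hf.isInducing
  let T : IrreducibleCloseds X := ⟨Set.univ, IrreducibleSpace.isIrreducible_univ X, isClosed_univ⟩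
  have h2 : IrreducibleCloseds.map f hf.continuous b < IrreducibleCloseds.map f hf.continuous a :=
    hm hlt
  have h3 : IrreducibleCloseds.map f hf.continuous a < T := by
    refine lt_of_le_of_ne (fun x _ => Set.mem_univ x) fun h => hr ?_
    have h4 : closure (f '' (a : Set Z)) = Set.univ := by
      have := congrArg (fun s : IrreducibleCloseds X => (s : Set X)) h
      exact this
    rw [Set.eq_univ_iff_forall] at h4 ⊢
    intro x
    have h5 : closure (f '' (a : Set Z)) ⊆ Set.range f :=
      closure_minimal (Set.image_subset_range f _) hf.isClosed_range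
    exact h5 (h4 x)
  rcases Order.krullDim_le_one_iff.mp h1 (IrreducibleCloseds.map f hf.continuous a) with h | h
  · exact absurd (h h2.le) (not_le_of_gt h2)
  · exact absurd (h h3.le) (not_le_of_gt h3)

section

variable {k : Type} [Field k]

/-- **Curves contain moduli spaces of planar configurations.** -/
theorem exists_curve (hR : Presents ({0, 1} : Set k)) (X : Sch k) (hX : FT True X)
    [IsIntegral X.left] (hs : Smooth X.hom) (hd : topologicalKrullDim X.left ≤ 1) :
    ∃ (m : ℕ) (M : Matroid (Fin 4 ⊕ Fin m)) (Z : Sch k) (i : Z ⟶ X) (j : modS k M ⟶ X),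
      SmoothMod k 1 M ∧ FT True Z ∧ topologicalKrullDim Z.left ≤ 0 ∧ IsTriple i j := by
  obtain ⟨m, M, s, g1, g2, g3, g4⟩ := exists_open_mod (sep := True) hR X hX
  let V : X.left.Opens := s.left.opensRange
  have ht : IsTriple (cloMap X V) s := ⟨inferInstance, g3, range_cloMap X V⟩
  refine ⟨m, M, clo X V, cloMap X V, s, ⟨g1, g2, isDomain_of_open s g3 g4,
    smooth_aff_iff.1 (smooth_of_open s g3 hs), (dim_opened ht).trans hd⟩, ft_clo hX, ?_, ht⟩
  refine krull_proper (Scheme.Hom.isClosedEmbedding (cloMap X V).left) ?_ hd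
  rw [range_cloMap]
  obtain ⟨y⟩ := g4
  intro h
  have h5 : s.left y ∈ ((V : Set X.left)ᶜ) := by
    rw [h]
    trivial
  exact h5 ⟨y, rfl⟩

end

/-- `N` is a direct factor of `N'`. -/
def IsFactorOf {M : Type u} [Category.{v} M] (N N' : M) : Prop :=
  ∃ (i : N ⟶ N') (r : N' ⟶ N), i ≫ r = 𝟙 N

lemma IsFactorOf.trans {M : Type u} [Category.{v} M] {N N' N'' : M} (h : IsFactorOf N N')
    (h' : IsFactorOf N' N'') : IsFactorOf N N'' := by
  obtain ⟨i, r, hir⟩ := h
  obtain ⟨i', r', hir'⟩ := h'
  refine ⟨i ≫ i', r' ≫ r, ?_⟩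
  rw [Category.assoc, reassoc_of% hir', hir]

/-- In a semisimple category an epimorphism splits. -/
lemma factor_of_epi {M : Type u} [Category.{v} M] [Abelian M]
    (hss : ∀ {X Y : M} (f : X ⟶ Y), Mono f → ∃ r : Y ⟶ X, f ≫ r = 𝟙 X) {X Y : M} (f : X ⟶ Y)
    (hf : Epi f) : IsFactorOf Y X := by
  obtain ⟨r, hr⟩ := hss (kernel.ι f) inferInstance
  have h1 : kernel.ι f ≫ (𝟙 X - r ≫ kernel.ι f) = 0 := by
    rw [Preadditive.comp_sub, Category.comp_id, ← Category.assoc, hr, Category.id_comp, sub_self]
  let c := Abelian.epiIsCokernelOfKernel (f := f) (KernelFork.ofι (kernel.ι f) (kernel.condition f))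
    (kernelIsKernel f)
  refine ⟨c.desc (CokernelCofork.ofπ _ h1), f, ?_⟩
  have h2 : f ≫ c.desc (CokernelCofork.ofπ _ h1) = 𝟙 X - r ≫ kernel.ι f :=
    c.fac _ WalkingParallelPair.one
  rw [← cancel_epi f, ← Category.assoc, h2, Preadditive.sub_comp, Category.assoc,
    kernel.condition, comp_zero, sub_zero, Category.id_comp, Category.comp_id]

end Pool.Agent.Helper10.PC
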