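import Pool.Agent.Helper13.RM.TDefs
import Pool.Agent.Helper13.RM.CDefs

/-!
# Comparison maps in one weight, and the empty scheme: definitions
-/

set_option autoImplicit false

open CategoryTheory CategoryTheory.Limits AlgebraicGeometry Pool.Agent.Y116.UV Pool.Agent.Q193.LT
  Pool.Agent.Helper13.RM

universe v u w w'

namespace Pool.Agent.Helper10.PC

/-- The properties of a comparison map `ρ : A j X → B j X` between two theories (for instance in one fixed
weight) that are used: isomorphism invariance and compatible long exact sequences for a closed subscheme `Z`
of `X` and its complement `U` (covariant or contravariant; `δ` is the shift), and the empty scheme. There are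
no Tate twists, no affine bundles and no products with `𝔾_m`. -/
structure IsCutPair {R : Type} [CommRing R] {ι : Type} {E : Type w'} [CommRing E]
    (C : PairData.{w} R ι E) (δ : ι ≃ ι) : Prop extends IsLong C δ where
  empty : ∀ X : Sch R, IsEmpty X.left → BijAll C X

/-- Smooth projective schemes generate: if the maps are bijective for all smooth projective schemes then
they are bijective for all separated schemes of finite type. -/
def AllGen {k : Type} [Field k] {ι : Type} {E : Type w'} [CommRing E] (C : PairData.{w} k ι E) :
    Prop :=
  (∀ Y : Sch k, SmoothProj Y → BijAll C Y) → ∀ X : Sch k, FT True X → BijAll C X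

/-- The properties of a family of objects `H X` of an abelian category (for instance the graded object
`Gr^W_w H^n_c(X)` of the cohomology with compact supports for one fixed degree `n` and one fixed weight
`w`) that are used: isomorphism invariance, `H ∅ = 0`, and the exactness of `H U → H X → H Z` for a closed
subscheme `Z` of `X` and its complement `U`. -/
structure IsHalf {R : Type} [CommRing R] {A : Type u} [Category.{v} A] [Abelian A] (H : Sch R → A) :
    Prop where
  iso : ∀ {X Y : Sch R}, FT True X → Nonempty (X ≅ Y) → Nonempty (H X ≅ H Y)
  empty : ∀ X : Sch R, IsEmpty X.left → IsZero (H X)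
  exact : ∀ {Z X U : Sch R} (i : Z ⟶ X) (j : U ⟶ X), FT True X → IsTriple i j →
    ∃ (a : H U ⟶ H X) (b : H X ⟶ H Z) (h : a ≫ b = 0), (ShortComplex.mk a b h).Exact

/-- The properties of a family of modules `H X` that are used: isomorphism invariance, `H ∅ = 0`, and the
exactness of `H U → H X → H Z` for a closed subscheme `Z` of `X` and its complement `U`. -/
structure IsHalfMod {R : Type} [CommRing R] {E : Type w'} [CommRing E]
    (H : Sch R → ModuleCat.{w} E) : Prop where
  iso : ∀ {X Y : Sch R}, FT True X → Nonempty (X ≅ Y) → Nonempty (H X ≅ H Y)
  empty : ∀ X : Sch R, IsEmpty X.left → Subsingleton (H X)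
  exact : ∀ {Z X U : Sch R} (i : Z ⟶ X) (j : U ⟶ X), FT True X → IsTriple i j →
    ∃ (a : H U ⟶ H X) (b : H X ⟶ H Z), ExactAt a b

end Pool.Agent.Helper10.PC
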