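import Pool.Agent.Helper13.RM.CList
import Pool.Agent.Helper13.RM.TDefs
import Pool.Graph.R_pool_sql_team_seeded_2aa45f1a.Q282.UK.Eff

/-!
# Weight complexes and smooth moduli spaces of planar configurations: definitions
-/

set_option autoImplicit false

open CategoryTheory Limits AlgebraicGeometry Pool.Agent.Y116.UV Pool.Agent.Q282.UM
  Pool.Agent.Q282.UK Pool.Agent.Helper13.RM

universe v u

namespace Pool.Agent.Helper10.PC

variable {k : Type} [Field k] {C : Type u} [Category.{v} C] [Preadditive C]

/-- `M` is a direct summand of a finite sum of motives `M(Y)` of smooth projective schemes `Y` of dimension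
at most `d`. -/
def IsPartDim [HasFiniteBiproducts C] (D : Complexes k C) (d : WithBot ℕ∞) (M : C) : Prop :=
  ∃ (r : ℕ) (Y : Fin r → Sch k), (∀ i, IsSmoothProjective (Y i)) ∧
    (∀ i, topologicalKrullDim (Y i).left ≤ d) ∧ IsSummand M (⨁ fun i => D.M (Y i))

/-- The properties of the weight complexes (covariant form) that are used. There are no affine bundles and
no products with `𝔾_m`.

* `iso`: isomorphic schemes have isomorphic weight complexes (in the homotopy category);
* `empty`: the weight complex of the empty scheme is zero;
* `triangle`: the triangle `W Z → W X → W U → (W Z)[1]` for a closed subscheme `Z` of `X` and its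
  complement `U`;
* `projective`: `W(X)` is the motive `M(X)` in degree zero if `X` is smooth and projective;
* `pieces`: `W(X)` is given by a complex whose terms are direct summands of sums of motives `M(Y)` of
  smooth projective schemes `Y` with `dim Y ≤ dim X`. -/
structure IsCutCov [HasZeroObject C] [HasBinaryBiproducts C] [HasFiniteBiproducts C]
    (D : Complexes k C) : Prop where
  iso : ∀ {X Y : Sch k}, FT True X → Nonempty (X ≅ Y) → Nonempty (D.W X ≅ D.W Y)
  empty : ∀ X : Sch k, IsEmpty X.left → IsZero (D.W X)
  triangle : ∀ {Z X U : Sch k} (i : Z ⟶ X) (j : U ⟶ X), FT True X → IsTriple i j →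
    IsDistinguished (D.W Z) (D.W X) (D.W U)
  projective : ∀ X : Sch k, IsSmoothProjective X → Nonempty (D.W X ≅ inZero (D.M X))
  pieces : ∀ X : Sch k, FT True X → ∃ K : CochainComplex C ℤ, Nonempty (D.W X ≅ toHK K) ∧
    ∀ i, IsPartDim D (topologicalKrullDim X.left) (K.X i)

end Pool.Agent.Helper10.PC
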