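import Pool.Agent.Helper10.PC.EDefs
import Pool.Agent.Helper13.RM.CApp

/-!
# Weight complexes and smooth moduli spaces of planar configurations
-/

set_option autoImplicit false

open CategoryTheory Limits AlgebraicGeometry Pool.Agent.Y116.UV Pool.Agent.Q282.UM
  Pool.Agent.Q282.UK Pool.Agent.Helper13.RM Pool.Agent.Z125.UN Pool.Agent.Helper3.GU Pool.Agent.Q193.LT

open scoped ZeroObject

universe v u

namespace Pool.Agent.Helper10.PC

section

variable {k : Type} [Field k] {C : Type u} [Category.{v} C] [Preadditive C] [HasZeroObject C]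
  [HasBinaryBiproducts C] [HasFiniteBiproducts C] {D : Complexes k C} {Q : C → Prop}
  {P : HK C → Prop}

lemma ext_zero_obj (hP : IsExtension Q P) {Z : C} (hZ : IsZero Z) : Q Z := by
  have h : Q (⨁ fun i : Fin 0 => (i.elim0 : C)) := hP.object_sum _ fun i => i.elim0
  refine hP.object_summand ?_ h
  exact ⟨0, 0, hZ.eq_of_src _ _⟩

lemma ext_zero_complex (hP : IsExtension Q P) {K : HK C} (hK : IsZero K) : P K := by
  have h : P (toHK (0 : CochainComplex C ℤ)) := hP.of_terms _ fun i =>
    ext_zero_obj hP (((HomologicalComplex.eval C (ComplexShape.up ℤ) i).map_isZero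
      (isZero_zero _)))
  refine hP.summand ?_ h
  exact ⟨0, 0, hK.eq_of_src _ _⟩

theorem cut_cov (hD : IsCutCov D) (hP : IsExtension Q P) :
    Cut True fun X : Sch k => P (D.W X) where
  iso hX e h := hP.iso (hD.iso hX e) h
  empty X hX := ext_zero_complex hP (hD.empty X hX)
  total i j h ht hZ hU := tri_mid hP (hD.triangle i j h ht) hZ hU

lemma of_pieces_dim (hD : IsCutCov D) (hP : IsExtension Q P) {d : WithBot ℕ∞}
    (h : ∀ Y : Sch k, IsSmoothProjective Y → topologicalKrullDim Y.left ≤ d → Q (D.M Y))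
    {X : Sch k} (hX : FT True X) (hd : topologicalKrullDim X.left ≤ d) : P (D.W X) := by
  obtain ⟨K, ⟨e⟩, hK⟩ := hD.pieces X hX
  refine hP.iso ⟨e.symm⟩ (hP.of_terms _ fun i => ?_)
  obtain ⟨r, Y, h1, h2, h3⟩ := hK i
  exact hP.object_summand h3 (hP.object_sum _ fun i => h (Y i) (h1 i) ((h2 i).trans hd))

variable [PerfectField k]

/-- **All smooth projective schemes of dimension at most `d`.** -/
theorem dim_cov (hk : Frac k) (hD : IsCutCov D) (hP : IsExtension Q P) (d : ℕ) :
    (∀ X : Sch k, IsSmoothProjective X → DimAt X d → Q (D.M X)) ↔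
      ∀ (m : ℕ) (M : Matroid (Fin 4 ⊕ Fin m)), SmoothMod k d M → P (D.W (modS k M)) := by
  have h := config_iff_smooth (cut_cov hD hP) (presents_frac hk) d
  constructor
  · exact fun h1 m M hM => of_pieces_dim hD hP h1 (ft_modT _) hM.dim
  · exact fun h1 X hX hd =>
      hP.to_object _ (hP.iso (hD.projective X hX) (h.mpr h1 X (ft_projective hX) hd))

/-- **All smooth projective schemes.** -/
theorem all_cov (hk : Frac k) (hD : IsCutCov D) (hP : IsExtension Q P) :
    (∀ X : Sch k, IsSmoothProjective X → Q (D.M X)) ↔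
      ∀ (d m : ℕ) (M : Matroid (Fin 4 ⊕ Fin m)), SmoothMod k d M → P (D.W (modS k M)) := by
  constructor
  · exact fun h1 d m M hM => of_pieces_dim hD hP (d := d) (fun Y hY _ => h1 Y hY) (ft_modT _) hM.dim
  · refine fun h1 X hX => hP.to_object _ (hP.iso (hD.projective X hX) ?_)
    exact config_smooth (cut_cov hD hP) (presents_frac hk)
      (fun m M h2 h3 h4 h5 => h1 (3 * m) m M ⟨h2, h3, h4, h5, dim_modT _⟩) X (ft_projective hX)

end

section

variable {k : Type} [Field k] [PerfectField k]

/-- **One smooth projective scheme.** -/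
theorem list_cov (hk : Frac k) {X : Sch k} (hX : IsSmoothProjective X) :
    ∃ L : List Mat, (∀ M ∈ L, SmoothMod k (topologicalKrullDim X.left) M.2) ∧
      ∀ {C : Type u} [Category.{v} C] [Preadditive C] [HasZeroObject C] [HasBinaryBiproducts C]
        [HasFiniteBiproducts C] {D : Complexes k C} {Q : C → Prop} {P : HK C → Prop},
        IsCutCov D → IsExtension Q P → (∀ M ∈ L, P (D.W (modS k M.2))) → Q (D.M X) := by
  obtain ⟨L, hL, h⟩ := config_list (sep := True) (presents_frac hk) X (ft_projective hX)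
  exact ⟨L, hL, fun {C} _ _ _ _ _ {D Q P} hD hP h1 =>
    hP.to_object _ (hP.iso (hD.projective X hX) (h _ (cut_cov hD hP) h1))⟩

end

end Pool.Agent.Helper10.PC
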