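import Pool.Agent.Helper10.PC.Defs
import Pool.Agent.Helper13.RM.CList
import Pool.Agent.Helper13.RM.CApp
import Pool.Graph.R_seed8.Q193.LT.Serre

/-!
# Smooth moduli spaces of planar configurations: one group for each scheme
-/

set_option autoImplicit false

open CategoryTheory CategoryTheory.Limits AlgebraicGeometry Pool.Agent.Y116.UV Pool.Agent.Q193.LT
  Pool.Agent.Q282.UK Pool.Agent.Z125.UN Pool.Agent.Helper3.GU Pool.Agent.Helper13.RM

universe v u w w'

namespace Pool.Agent.Helper10.PC

section

variable {R : Type} [CommRing R] {A : Type u} [Category.{v} A] [Abelian A]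

/-- Serre classes. -/
theorem cut_serre {H : Sch R → A} (hH : IsHalf H) {S : A → Prop} (hS : IsSerre S) :
    Cut True fun X => S (H X) where
  iso hX e h := by
    obtain ⟨e'⟩ := hH.iso hX e
    exact hS.iso e' h
  empty X hX := hS.zero _ (hH.empty X hX)
  total i j hX ht hZ hU := by
    obtain ⟨a, b, h, he⟩ := hH.exact i j hX ht
    exact hS.mid a b h he hU hZ

end

section

variable {R : Type} [CommRing R] {E : Type w'} [CommRing E]

/-- Finite generation in one degree. -/
theorem cut_finite [IsNoetherianRing E] {H : Sch R → ModuleCat.{w} E} (hH : IsHalfMod H) :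
    Cut True fun X => Module.Finite E (H X) where
  iso hX e h := finite_iso (hH.iso hX e) h
  empty X hX := by
    have := hH.empty X hX
    infer_instance
  total i j hX ht hZ hU := by
    obtain ⟨a, b, h⟩ := hH.exact i j hX ht
    exact finite_mid a b h hU hZ

/-- Vanishing in one degree. -/
theorem cut_zero {H : Sch R → ModuleCat.{w} E} (hH : IsHalfMod H) :
    Cut True fun X => Subsingleton (H X) where
  iso hX e h := by
    obtain ⟨e⟩ := hH.iso hX e
    exact e.toLinearEquiv.symm.injective.subsingleton
  empty X hX := hH.empty X hX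
  total {Z X U} z u hX ht hZ hU := by
    obtain ⟨f, g, h⟩ := hH.exact z u hX ht
    refine ⟨fun a b => ?_⟩
    have h0 : ∀ x : H X, x = 0 := by
      intro x
      obtain ⟨y, rfl⟩ := (show Function.Exact f.hom g.hom from h) x |>.1 (Subsingleton.elim _ _)
      rw [Subsingleton.elim y 0, map_zero]
    rw [h0 a, h0 b]

end

end Pool.Agent.Helper10.PC
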