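import Pool.Agent.Helper10.PC.Half
import Pool.Agent.Helper13.RM.Piece

/-!
# One smooth moduli space of planar configurations for each motive
-/

set_option autoImplicit false

open CategoryTheory CategoryTheory.Limits AlgebraicGeometry Pool.Agent.Y116.UV Pool.Agent.Q193.LT
  Pool.Agent.Q282.UK Pool.Agent.Z125.UN Pool.Agent.Helper3.GU Pool.Agent.Helper13.RM
open scoped TensorProduct

universe v u

namespace Pool.Agent.Helper10.PC

/-- Two integral domains of finite type over a field embed in a third one. -/
lemma exists_common {k : Type} [Field k] (A B : Type) [CommRing A] [CommRing B] [Algebra k A]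
    [Algebra k B] [IsDomain A] [IsDomain B] [Algebra.FiniteType k A] [Algebra.FiniteType k B] :
    ∃ (C : Type) (_ : CommRing C) (_ : Algebra k C), IsDomain C ∧ Algebra.FiniteType k C ∧
      ∃ (f : A →ₐ[k] C) (g : B →ₐ[k] C), Function.Injective f ∧ Function.Injective g := by
  let KA := FractionRing A
  let KB := FractionRing B
  have hnt : Nontrivial (KA ⊗[k] KB) := inferInstance
  obtain ⟨m, hm⟩ := Ideal.exists_maximal (KA ⊗[k] KB)
  let φ : A ⊗[k] B →ₐ[k] (KA ⊗[k] KB) ⧸ m := (Ideal.Quotient.mkₐ k m).comp
    (Algebra.TensorProduct.map (IsScalarTower.toAlgHom k A KA) (IsScalarTower.toAlgHom k B KB))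
  have hL : IsDomain ((KA ⊗[k] KB) ⧸ m) := Ideal.Quotient.isDomain m
  have hp : (RingHom.ker φ).IsPrime := RingHom.ker_isPrime φ
  refine ⟨(A ⊗[k] B) ⧸ RingHom.ker φ, inferInstance, inferInstance,
    Ideal.Quotient.isDomain _, ?_, (Ideal.Quotient.mkₐ k _).comp Algebra.TensorProduct.includeLeft,
    (Ideal.Quotient.mkₐ k _).comp Algebra.TensorProduct.includeRight, ?_, ?_⟩
  · have h0 : Algebra.FiniteType A (A ⊗[k] B) := inferInstance
    have h1 : Algebra.FiniteType k (A ⊗[k] B) := Algebra.FiniteType.trans (S := A) inferInstance h0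
    exact Algebra.FiniteType.of_surjective (Ideal.Quotient.mkₐ k (RingHom.ker φ))
      (Ideal.Quotient.mkₐ_surjective k _)
  · rw [injective_iff_map_eq_zero]
    intro a ha
    have h1 : φ (a ⊗ₜ 1) = 0 := Ideal.Quotient.eq_zero_iff_mem.1 ha
    let ψ : KA →+* (KA ⊗[k] KB) ⧸ m := (Ideal.Quotient.mk m).comp
      (Algebra.TensorProduct.includeLeft (R := k) (S := k) (A := KA) (B := KB) : KA →ₐ[k] KA ⊗[k] KB)
    have h2 : ψ (algebraMap A KA a) = 0 := by
      have h3 : ψ (algebraMap A KA a) = φ (a ⊗ₜ 1) := by
        change Ideal.Quotient.mk m (algebraMap A KA a ⊗ₜ 1) =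
          Ideal.Quotient.mk m (algebraMap A KA a ⊗ₜ algebraMap B KB 1)
        rw [map_one]
      rw [h3, h1]
    have h4 : algebraMap A KA a = 0 := (map_eq_zero_iff ψ ψ.injective).mp h2
    exact (map_eq_zero_iff _ (IsFractionRing.injective A KA)).mp h4
  · rw [injective_iff_map_eq_zero]
    intro b hb
    have h1 : φ (1 ⊗ₜ b) = 0 := Ideal.Quotient.eq_zero_iff_mem.1 hb
    let ψ : KB →+* (KA ⊗[k] KB) ⧸ m := (Ideal.Quotient.mk m).comp
      (Algebra.TensorProduct.includeRight (R := k) (A := KA) (B := KB) : KB →ₐ[k] KA ⊗[k] KB)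
    have h2 : ψ (algebraMap B KB b) = 0 := by
      have h3 : ψ (algebraMap B KB b) = φ (1 ⊗ₜ b) := by
        change Ideal.Quotient.mk m (1 ⊗ₜ algebraMap B KB b) =
          Ideal.Quotient.mk m (algebraMap A KA 1 ⊗ₜ algebraMap B KB b)
        rw [map_one]
      rw [h3, h1]
    have h4 : algebraMap B KB b = 0 := (map_eq_zero_iff ψ ψ.injective).mp h2
    exact (map_eq_zero_iff _ (IsFractionRing.injective B KB)).mp h4

section

variable {k : Type} [Field k]

lemma dominant_affMap {A B : Type} [CommRing A] [CommRing B] [Algebra k A] [Algebra k B]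
    (f : A →ₐ[k] B) (hf : Function.Injective f) : IsDominant (affMap f).left := by
  refine ⟨?_⟩
  have h : DenseRange (PrimeSpectrum.comap (f : A →+* B)) := by
    rw [PrimeSpectrum.denseRange_comap_iff_ker_le_nilRadical]
    have h1 : RingHom.ker (f : A →+* B) = ⊥ := (RingHom.injective_iff_ker_eq_bot _).mp hf
    rw [h1]
    exact bot_le
  exact h

lemma dominant_open {X Y : Sch k} (s : X ⟶ Y) (hs : IsOpenImmersion s.left) (hX : Nonempty X.left)
    (hY : IsIntegral Y.left) : IsDominant s.left := by
  refine ⟨?_⟩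
  have h1 : IsOpen (Set.range s.left) := (Scheme.Hom.isOpenEmbedding s.left).isOpen_range
  exact h1.dense (Set.range_nonempty _)

/-- Smooth integral schemes of finite type which dominate `W`. -/
structure Dominates (U W : Sch k) : Prop where
  ft : FT True U
  smooth : Smooth U.hom
  integral : IsIntegral U.left
  dominant : ∃ g : U ⟶ W, IsDominant g.left

lemma Dominates.trans {W W' U : Sch k} (h : Dominates U W) (g : W ⟶ W')
    (hg : IsDominant g.left) : Dominates U W' := by
  obtain ⟨h1, h2, h3, f, hf⟩ := h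
  refine ⟨h1, h2, h3, f ≫ g, ?_⟩
  change IsDominant (f.left ≫ g.left)
  infer_instance

variable {A : Type u} [Category.{v} A] [Abelian A] {T : Sch k → A → Prop}

/-- `N` is in the class `T U` for all smooth integral schemes `U` which dominate a suitable integral
affine scheme. -/
def Good (T : Sch k → A → Prop) (N : A) : Prop :=
  ∃ (C : Type) (_ : CommRing C) (_ : Algebra k C), IsDomain C ∧ Algebra.FiniteType k C ∧
    ∀ U : Sch k, Dominates U (aff k C) → T U N

theorem good_serre (hT : ∀ U, IsSerre (T U)) : IsSerre (Good T) where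
  zero N hN := ⟨k, inferInstance, inferInstance, inferInstance, inferInstance,
    fun U _ => (hT U).zero N hN⟩
  mid {X Y Z} f g w he hX hZ := by
    obtain ⟨C, _, _, _, _, hC⟩ := hX
    obtain ⟨C', _, _, _, _, hC'⟩ := hZ
    obtain ⟨E, _, _, h1, h2, a, b, ha, hb⟩ := exists_common (k := k) C C'
    refine ⟨E, inferInstance, inferInstance, h1, h2, fun U hU => (hT U).mid f g w he ?_ ?_⟩
    · exact hC U (hU.trans (affMap a) (dominant_affMap a ha))
    · exact hC' U (hU.trans (affMap b) (dominant_affMap b hb))

/-- The hypothesis on dominant morphisms: every integral scheme `X` of finite type has a nonempty open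
subscheme `V` such that the objects `H i V` are in the class `T U` for all smooth integral schemes `U` which
dominate `V`. -/
def DominantRule {ι : Type} (H : ι → Sch k → A) (T : Sch k → A → Prop) : Prop :=
  ∀ X : Sch k, FT True X → IsIntegral X.left → ∃ (V : Sch k) (j : V ⟶ X),
    IsOpenImmersion j.left ∧ Nonempty V.left ∧ FT True V ∧
      ∀ U : Sch k, Dominates U V → ∀ i, T U (H i V)

theorem good_all {ι : Type} {H : ι → Sch k → A} (hR : Presents ({0, 1} : Set k))
    (hT : ∀ U, IsSerre (T U)) (hH : ∀ i, IsHalf (H i)) (hd : DominantRule H T) (i : ι) (X : Sch k)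
    (hX : FT True X) : Good T (H i X) := by
  refine of_pieces (cut_serre (hH i) (good_serre hT)) (fun B _ _ _ _ => ?_) X hX
  have hi : IsIntegral (aff k B).left := by
    change IsIntegral (Spec (CommRingCat.of B))
    rw [affine_isIntegral_iff]
    infer_instance
  obtain ⟨V, j, h1, h2, h3, h4⟩ := hd (aff k B) (ft_aff True) hi
  refine ⟨V, j, h1, h2, ?_⟩
  have hV : IsIntegral V.left := isIntegral_of_isOpenImmersion j.left
  obtain ⟨n, M, s, g1, g2, g3, g4⟩ := exists_open_mod (sep := True) hR V h3
  refine ⟨ModR k M, inferInstance, inferInstance, isDomain_of_open s g3 g4, inferInstance,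
    fun U hU => h4 U (hU.trans s (dominant_open s g3 g4 hV)) i⟩

/-- **One smooth moduli space of planar configurations for each motive.** -/
theorem exists_one [PerfectField k] {ι : Type} {H : ι → Sch k → A}
    (hR : Presents ({0, 1} : Set k)) (hT : ∀ U, IsSerre (T U)) (hH : ∀ i, IsHalf (H i))
    (hd : DominantRule H T)
    (hg : ∀ S : A → Prop, IsSerre S → (∀ Y : Sch k, SmoothProj Y → ∀ i, S (H i Y)) → ∀ N, S N)
    (N : A) : ∃ (m : ℕ) (M : Matroid (Fin 4 ⊕ Fin m)), SmoothMod k ⊤ M ∧ T (modS k M) N := by
  obtain ⟨C, _, _, hC, hf, h⟩ := hg _ (good_serre hT)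
    (fun Y hY i => good_all hR hT hH hd i Y hY.ft) N
  obtain ⟨w, hw, hs⟩ := generic_smooth_field (k := k) C
  have hdm : IsDomain (Localization.Away w) :=
    IsLocalization.isDomain_localization (powers_le_nonZeroDivisors_of_noZeroDivisors hw)
  have hft : Algebra.FiniteType k (Localization.Away w) := ft_loc _ _
  let W : Sch k := aff k (Localization.Away w)
  have hi : IsIntegral W.left := by
    change IsIntegral (Spec (CommRingCat.of (Localization.Away w)))
    rw [affine_isIntegral_iff]
    exact hdm
  have hi' : IsIntegral (aff k C).left := by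
    change IsIntegral (Spec (CommRingCat.of C))
    rw [affine_isIntegral_iff]
    exact hC
  have hW : FT True W := ft_aff True
  let o : W ⟶ aff k C := affMap (IsScalarTower.toAlgHom k C (Localization.Away w))
  have ho : IsOpenImmersion o.left :=
    Scheme.isOpenImmersion_SpecMap_localizationAway (R := .of C) w
  obtain ⟨n, M, s, g1, g2, g3, g4⟩ := exists_open_mod (sep := True) hR W hW
  have hdom := isDomain_of_open s g3 g4
  have hsm : Smooth (modS k M).hom := smooth_of_open s g3 (smooth_aff_iff.2 hs)
  have hMi : IsIntegral (modS k M).left := (affine_isIntegral_iff _).mpr hdom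
  refine ⟨n, M, ⟨g1, g2, hdom, smooth_aff_iff.1 hsm, le_top⟩, h _ ?_⟩
  refine ⟨ft_modT _, hsm, hMi, s ≫ o, ?_⟩
  have hso : IsOpenImmersion (s ≫ o).left := by
    change IsOpenImmersion (s.left ≫ o.left)
    infer_instance
  exact dominant_open (s ≫ o) hso g4 hi'

end

end Pool.Agent.Helper10.PC
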