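import Pool.Agent.Helper10.PC.SDefs
import Pool.Agent.Helper10.PC.Half
import Pool.Agent.Helper53.SZ.Weight

/-!
# Direct sums of motives of smooth moduli spaces of planar configurations
-/

set_option autoImplicit false

open CategoryTheory CategoryTheory.Limits AlgebraicGeometry Pool.Agent.Y116.UV Pool.Agent.Q193.LT
  Pool.Agent.Q282.UK Pool.Agent.Z125.UN Pool.Agent.Helper3.GU Pool.Agent.Helper13.RM
  Pool.Agent.Helper53.SZ

universe v u

namespace Pool.Agent.Helper10.PC

section

variable {k : Type} [Field k] [PerfectField k]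

/-- **One scheme.** The object `H X` is a direct factor of a finite direct sum of the objects of finitely
many smooth moduli spaces of planar configurations of dimension at most `dim X`, which depend only on
`X`. -/
theorem factor_mod (hk : Frac k) (X : Sch k) (hX : FT True X) :
    ∃ L : List Mat, (∀ M ∈ L, SmoothMod k (topologicalKrullDim X.left) M.2) ∧
      ∀ {A : Type u} [Category.{v} A] [Abelian A]
        (_ : ∀ {X Y : A} (f : X ⟶ Y), Mono f → ∃ r : Y ⟶ X, f ≫ r = 𝟙 X)
        {H : ℤ → Sch k → A}, (∀ j, IsHalf (H j)) → ∀ j, Factor (OfMatroids H L) (H j X) := by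
  obtain ⟨L, hL, h⟩ := config_list (sep := True) (presents_frac hk) X hX
  refine ⟨L, hL, fun {A} _ _ hss {H} hH j => ?_⟩
  exact h _ (cut_serre (hH j) (factor_serre hss)) fun M hM => Factor.self ⟨M, hM, j, rfl⟩

variable {A : Type u} [Category.{v} A] [Abelian A] {H : ℕ → ℤ → Sch k → A}

/-- **Finite direct sums.** -/
theorem sums_mod (hk : Frac k) (hH : ∀ n j, IsHalf (H n j)) (hg : GenDegree H)
    (hss : ∀ {X Y : A} (f : X ⟶ Y), Mono f → ∃ r : Y ⟶ X, f ≫ r = 𝟙 X) {P : A → Prop}
    (hP : Inherited P) (D : Set ℕ) : Sums (OfProjDeg H D) P ↔ Sums (OfModuli H D) P := by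
  have key : ∀ G : A → Prop, IsSerre (Factor G) := fun G => factor_serre hss
  constructor
  · refine sums_of_factor hss hP fun N hN => ?_
    obtain ⟨n, hn, j, m, M, hM, rfl⟩ := hN
    exact hg n _ (key (OfProjDeg H D))
      (fun Y hY hd j => Factor.self ⟨n, hn, j, Y, hY, hd, rfl⟩) _ (ft_modT _) hM.dim j
  · refine sums_of_factor hss hP fun N hN => ?_
    obtain ⟨n, hn, j, Y, hY, hd, rfl⟩ := hN
    exact (config_iff_smooth (cut_serre (hH n j) (key (OfModuli H D))) (presents_frac hk) n).mpr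
      (fun m M hM => Factor.self ⟨n, hn, j, m, M, hM, rfl⟩) Y hY.ft hd

/-- **All objects.** -/
theorem all_mod (hk : Frac k) (hH : ∀ n j, IsHalf (H n j)) (hg : GenDegree H)
    (hss : ∀ {X Y : A} (f : X ⟶ Y), Mono f → ∃ r : Y ⟶ X, f ≫ r = 𝟙 X) {P : A → Prop}
    (hP : Inherited P) {D : Set ℕ} (ha : ∀ N : A, Factor (OfProjDeg H D) N) :
    (∀ N, P N) ↔ Sums (OfModuli H D) P := by
  rw [← sums_mod hk hH hg hss hP D]
  exact ⟨fun h J _ M _ => h _, fun h N => factor_of_sums hP h (ha N)⟩

end

end Pool.Agent.Helper10.PC
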