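import Pool.Agent.Helper10.PC.One
import Pool.Agent.Helper10.PC.Sums

/-!
# The period conjecture for pure motives and moduli spaces of planar configurations

Let `k ⊆ ℚ̄ ⊂ ℂ` be a field and let `𝓜` be the Tannakian category of the semisimple Nori motives over `k`
(these are the pure motives, the same as the motives for motivated cycles of André). For motives `N` and
`N'` let `Gen N N'` be the statement that `N'` is in the tensor category `⟨N⟩` generated by `N`
(subquotients of finite direct sums of the motives `N^{⊗a} ⊗ (N^∨)^{⊗b}`). The schemes in the following are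
separated schemes of finite type over `ℚ`.

* For a scheme `X`, a degree `n` and a twist `j`, put `H n j X = Gr^W_n H^n_c(X_k)(j)`. For smooth
  projective `X` this is `H^n(X_k)(j)`.
* For a smooth scheme `U` let `h U` be the direct sum of `ℚ(1)` and of the motives `W_n H^n(U_k)`, for all
  `n`. Here `W_n H^n(U_k)` is the part of the lowest weight in the cohomology, that is, the image of
  `H^n` of a smooth compactification of `U`.

A matroid `M` of rank three on the set `Fin 4 ⊕ Fin m` is **framed** if any three of the four elements of
`Fin 4` form a base; it is **simple** if any two elements are independent. Let `modS ℚ M` be the moduli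
space of the configurations of `m + 4` different points in the projective plane in which exactly the triples
prescribed by `M` are collinear, modulo projective transformations: the four points of `Fin 4` are the
points of `e_1, e_2, e_3, e_1 + e_2 + e_3`, and the other ones have normalised coordinates.

For a motive `N` let `tr N` be the transcendence degree of the field `k(periods of N)`, and `dm N` the
dimension of the motivic Galois group of `N`. Question Q1 asks for `dm N ≤ tr N`.

**Theorem.** (1) For every pure motive `N` over `k` there is **one** simple framed matroid `M` of rank three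
whose moduli space `modS ℚ M` is integral and smooth, such that `N` is in `⟨h (modS ℚ M)⟩`.

(2) `dm N ≤ tr N` is true for all pure motives `N` over `k` if and only if it is true for the motives
`N = h (modS ℚ M)`, for all simple framed matroids `M` of rank three such that `modS ℚ M` is integral and
smooth.

(3) For every set `D` of degrees: `dm N ≤ tr N` is true for all finite direct sums `N` of Tate twists of
motives `H^n(Y_k)`, `n` in `D`, where `Y` is smooth projective of dimension at most `n`, if and only if it
is true for all finite direct sums of Tate twists of motives `Gr^W_n H^n_c(X_k)`, `n` in `D`, where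
`X = modS ℚ M` is integral, smooth and of dimension at most `n`, for simple framed matroids `M` of rank
three.

In (2) it is enough to consider **one** moduli space at a time. This is not obvious, since the period
conjecture is not inherited by direct sums; the earlier reductions of similar conjectures (to graph
hypersurfaces, to cubic hypersurfaces) need all finite direct sums of the motives of several schemes of the
family. For mixed motives nothing is said.

The facts about pure motives which are used are listed in `IsPureMotives`. The rule for dominant morphisms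
(`DominantRule`): every integral scheme `X` has a nonempty open subscheme `V` such that the motives
`H n j V` are in `⟨h U⟩` for all smooth integral schemes `U` which dominate `V`. (Let `V` be smooth and so
small that the kernels of `H^n(X̄) → H^n(V)` do not grow for smaller open subschemes, where `X̄` is a
smooth compactification. By Poincaré duality the motives in question are twists of duals of
`W_n H^n(V_k)`. If `U` dominates `V` then some subscheme of `U` is finite étale over an open subscheme `V'` of
`V`, and so `W_n H^n(V_k) → W_n H^n(U_k)` is injective, as `W_n H^n(V_k) → H^n(V'_k)` is.)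
-/

set_option autoImplicit false

open CategoryTheory AlgebraicGeometry Pool.Agent.Y116.UV Pool.Agent.Z125.UN Pool.Agent.Q193.LT
  Pool.Agent.Helper3.GU Pool.Agent.Helper13.RM Pool.Agent.Helper53.SZ Pool.Agent.Helper10.PC

universe v u

namespace Pool.Agent.Results.MP_12eca1_ag.OneConfigurationSpace

/-- The properties of pure motives that are used; see the explanations above.

* `semisimple`: all monomorphisms split;
* `self`, `serre`: `N` is in `⟨N⟩`, and `⟨N⟩` is closed under subobjects, quotients and (split) extensions;
* `half`: isomorphisms, `H n j ∅ = 0`, and the exactness of `H n j U → H n j X → H n j Z`;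
* `dominant`: the rule for dominant morphisms;
* `generated`: the motives `H n j Y` of the smooth projective schemes over `ℚ` generate;
* `degree`: the same for the graded objects of the cohomology with compact supports in one degree and one
  weight (see `GenDegree`). -/
structure IsPureMotives {𝓜 : Type u} [Category.{v} 𝓜] [Abelian 𝓜] (H : ℕ → ℤ → Sch ℚ → 𝓜)
    (h : Sch ℚ → 𝓜) (Gen : 𝓜 → 𝓜 → Prop) : Prop where
  semisimple : ∀ {N N' : 𝓜} (f : N ⟶ N'), Mono f → ∃ r : N' ⟶ N, f ≫ r = 𝟙 N
  self : ∀ N, Gen N N
  serre : ∀ N, IsSerre (Gen N)
  half : ∀ n j, IsHalf (H n j)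
  dominant : DominantRule (fun i : ℕ × ℤ => H i.1 i.2) fun U => Gen (h U)
  generated : ∀ S : 𝓜 → Prop, IsSerre S → (∀ Y : Sch ℚ, SmoothProj Y → ∀ n j, S (H n j Y)) →
    ∀ N, S N
  degree : GenDegree H

/-- The transcendence degree `tr` and the dimension `dm` of the motivic Galois group: the periods of `N` are
the coordinates of a point of a torsor under this group, and the torsor of `N` maps onto the one of each
`N'` in `⟨N⟩`, so `tr` drops by at most the drop of `dm`. -/
def PeriodsDrop {𝓜 : Type u} (Gen : 𝓜 → 𝓜 → Prop) (tr dm : 𝓜 → ℕ) : Prop :=
  ∀ N N', Gen N N' → tr N + dm N' ≤ tr N' + dm N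

/-- **The period conjecture for pure motives and moduli spaces of planar configurations.** See the
explanations above. -/
theorem result {𝓜 : Type u} [Category.{v} 𝓜] [Abelian 𝓜] {H : ℕ → ℤ → Sch ℚ → 𝓜}
    {h : Sch ℚ → 𝓜} {Gen : 𝓜 → 𝓜 → Prop} (hT : IsPureMotives H h Gen) :
    (∀ N : 𝓜, ∃ (m : ℕ) (M : Matroid (Fin 4 ⊕ Fin m)), SmoothMod ℚ ⊤ M ∧ Gen (h (modS ℚ M)) N) ∧
    ∀ {tr dm : 𝓜 → ℕ}, PeriodsDrop Gen tr dm →
      ((∀ N, dm N ≤ tr N) ↔ ∀ (m : ℕ) (M : Matroid (Fin 4 ⊕ Fin m)), SmoothMod ℚ ⊤ M →
        dm (h (modS ℚ M)) ≤ tr (h (modS ℚ M))) ∧
      ∀ D : Set ℕ, Sums (OfProjDeg H D) (fun N => dm N ≤ tr N) ↔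
        Sums (OfModuli H D) (fun N => dm N ≤ tr N) := by
  have key : ∀ N : 𝓜, ∃ (m : ℕ) (M : Matroid (Fin 4 ⊕ Fin m)), SmoothMod ℚ ⊤ M ∧
      Gen (h (modS ℚ M)) N := fun N =>
    exists_one (H := fun i : ℕ × ℤ => H i.1 i.2) (T := fun U => Gen (h U)) (presents_frac frac_rat)
      (fun U => hT.serre (h U)) (fun i => hT.half i.1 i.2) hT.dominant
      (fun S hS hY => hT.generated S hS fun Y hY' n j => hY Y hY' (n, j)) N
  refine ⟨key, fun {tr dm} hP => ⟨⟨fun h1 m M _ => h1 _, fun h1 N => ?_⟩, fun D => ?_⟩⟩
  · obtain ⟨m, M, hM, hg⟩ := key N
    have h2 := h1 m M hM
    have h3 := hP _ _ hg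
    omega
  · refine sums_mod frac_rat hT.half hT.degree hT.semisimple (fun {X Y} i r hir hY => ?_) D
    have hm : Mono i := mono_of_mono_fac hir
    have h1 : Gen Y X := (hT.serre Y).of_mono i (hT.self Y)
    have h2 := hP _ _ h1
    omega

end Pool.Agent.Results.MP_12eca1_ag.OneConfigurationSpace
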