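import Pool.Agent.Helper10.PC.Defs
import Pool.Agent.Helper13.RM.CList
import Pool.Agent.Helper13.RM.CApp

/-!
# Smooth moduli spaces of planar configurations: comparison maps in one weight
-/

set_option autoImplicit false

open CategoryTheory CategoryTheory.Limits AlgebraicGeometry Pool.Agent.Y116.UV Pool.Agent.Q193.LT
  Pool.Agent.Q282.UK Pool.Agent.Z125.UN Pool.Agent.Helper3.GU Pool.Agent.Helper13.RM

universe v u w w'

namespace Pool.Agent.Helper10.PC

/-- Bijectivity of the comparison maps. -/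
theorem cut_bij {R : Type} [CommRing R] {ι : Type} {E : Type w'} [CommRing E]
    {C : PairData.{w} R ι E} {δ : ι ≃ ι} (hC : IsCutPair C δ) : Cut True (BijAll C) where
  iso hX e h j := (hC.iso hX e j).iff.mp (h j)
  empty := hC.empty
  total i j hX ht hZ hU := by
    rcases hC.les i j hX ht with h | h
    · exact h.mid hU hZ
    · exact h.mid hZ hU

section

variable {k : Type} [Field k] [PerfectField k]

/-- **Finitely many smooth moduli spaces for one scheme.** -/
theorem list_bij (hk : Frac k) (S : Sch k) (hS : FT True S) :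
    ∃ L : List Mat, (∀ M ∈ L, SmoothMod k (topologicalKrullDim S.left) M.2) ∧
      ∀ {ι : Type} {E : Type w'} [CommRing E] (C : PairData.{w} k ι E) {δ : ι ≃ ι},
        IsCutPair C δ → (∀ M ∈ L, BijAll C (modS k M.2)) → BijAll C S := by
  obtain ⟨L, hL, h⟩ := config_list (sep := True) (presents_frac hk) S hS
  exact ⟨L, hL, fun {ι E} _ C {δ} hC hM => h _ (cut_bij hC) hM⟩

/-- **One scheme and finitely many smooth moduli spaces.** -/
theorem list_tfae (hk : Frac k) (S : Sch k) (hS : SmoothProj S) :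
    ∃ L : List Mat, (∀ M ∈ L, SmoothMod k (topologicalKrullDim S.left) M.2) ∧
      ∀ {ι : Type} {E : Type w'} [CommRing E] (C : PairData.{w} k ι E) {δ : ι ≃ ι},
        IsCutPair C δ → AllGen C → ∀ Q : Prop, (BijAll C S → Q) →
        (Q → ∀ Y, SmoothProj Y → BijAll C Y) →
        [Q, ∀ X : Sch k, FT True X → BijAll C X, ∀ M ∈ L, BijAll C (modS k M.2)].TFAE := by
  obtain ⟨L, hL, h⟩ := list_bij hk S hS.ft
  refine ⟨L, hL, fun {ι E} _ C {δ} hC hg Q h1 h2 => ?_⟩
  tfae_have 1 → 2 := fun hQ => hg (h2 hQ)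
  tfae_have 2 → 3 := fun h3 M _ => h3 _ (ft_modT _)
  tfae_have 3 → 1 := fun h3 => h1 (h C hC h3)
  tfae_finish

/-- **All schemes, in each dimension.** -/
theorem dims_tfae (hk : Frac k) {ι : Type} {E : Type w'} [CommRing E] {C : PairData.{w} k ι E}
    {δ : ι ≃ ι} (hC : IsCutPair C δ) (gC : BijDim C) :
    (∀ d : ℕ, List.TFAE [∀ Y : Sch k, SmoothProj Y → DimAt Y d → BijAll C Y,
      ∀ X : Sch k, FT True X → DimAt X d → BijAll C X,
      ∀ (m : ℕ) (M : Matroid (Fin 4 ⊕ Fin m)), SmoothMod k d M → BijAll C (modS k M)]) ∧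
    List.TFAE [∀ Y : Sch k, SmoothProj Y → BijAll C Y,
      ∀ X : Sch k, FT True X → BijAll C X,
      ∀ (d m : ℕ) (M : Matroid (Fin 4 ⊕ Fin m)), SmoothMod k d M → BijAll C (modS k M)] := by
  have hR : Presents ({0, 1} : Set k) := presents_frac hk
  constructor
  · intro d
    tfae_have 1 → 2 := gC d
    tfae_have 2 → 1 := fun h Y hY hd => h Y hY.ft hd
    tfae_have 2 ↔ 3 := config_iff_smooth (cut_bij hC) hR d
    tfae_finish
  · tfae_have 2 → 1 := fun h Y hY => h Y hY.ft
    tfae_have 3 → 2 := fun h X hX => config_smooth (cut_bij hC) hR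
      (fun m M h1 h2 h3 h4 => h (3 * m) m M ⟨h1, h2, h3, h4, dim_modT _⟩) X hX
    tfae_have 1 → 3 := fun h d m M hM => gC d (fun Y hY _ => h Y hY) _ (ft_modT _) hM.dim
    tfae_finish

/-- **A family of schemes of bounded dimension.** -/
theorem family_tfae (hk : Frac k) {ι : Type} {E : Type w'} [CommRing E] {C : PairData.{w} k ι E}
    {δ : ι ≃ ι} (hC : IsCutPair C δ) (gC : BijDim C) {I : Type u} (d : ℕ) (S : I → Sch k)
    (hS : ∀ i, SmoothProj (S i)) (dS : ∀ i, DimAt (S i) d) (Q : I → Prop) (St : I → Sch k → Prop)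
    (bij : ∀ Y, SmoothProj Y → (BijAll C Y ↔ ∀ i, St i Y)) (h1 : ∀ i, St i (S i) → Q i)
    (h2 : ∀ i, Q i → ∀ Y, SmoothProj Y → St i Y) :
    List.TFAE [∀ i, Q i,
      ∀ X : Sch k, FT True X → DimAt X d → BijAll C X,
      ∀ (m : ℕ) (M : Matroid (Fin 4 ⊕ Fin m)), SmoothMod k d M → BijAll C (modS k M)] := by
  tfae_have 1 → 2 := fun h => gC d fun Y hY _ => (bij Y hY).mpr fun i => h2 i (h i) Y hY
  tfae_have 2 → 1 := fun h i => h1 i ((bij (S i) (hS i)).mp (h _ (hS i).ft (dS i)) i)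
  tfae_have 2 ↔ 3 := config_iff_smooth (cut_bij hC) (presents_frac hk) d
  tfae_finish

end

end Pool.Agent.Helper10.PC
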