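import Pool.Agent.Helper10.PC.Defs
import Pool.Agent.Helper13.RM.CList
import Pool.Agent.Helper53.SZ.WDefs

/-!
# Direct sums of motives of smooth moduli spaces of planar configurations: definitions
-/

set_option autoImplicit false

open CategoryTheory CategoryTheory.Limits AlgebraicGeometry Pool.Agent.Y116.UV Pool.Agent.Q193.LT
  Pool.Agent.Helper13.RM Pool.Agent.Helper53.SZ

universe v u

namespace Pool.Agent.Helper10.PC

variable {k : Type} [Field k] {A : Type u} [Category.{v} A]

/-- Smooth projective schemes generate in the degree `n` and the dimension `n`: a Serre class that contains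
`H n j Y` (for all twists `j`) for all smooth projective `Y` of dimension at most `n` contains `H n j X` for
all separated schemes `X` of finite type and of dimension at most `n`. (The graded object
`Gr^W_n H^n_c(X)` is a subquotient of a sum of `H^n(Y)` for smooth projective `Y`, `dim Y ≤ dim X`.) -/
def GenDegree [Abelian A] (H : ℕ → ℤ → Sch k → A) : Prop :=
  ∀ (n : ℕ) (S : A → Prop), IsSerre S →
    (∀ Y : Sch k, SmoothProj Y → DimAt Y n → ∀ j, S (H n j Y)) →
    ∀ X : Sch k, FT True X → DimAt X n → ∀ j, S (H n j X)

/-- The objects `H n j Y` for smooth projective `Y` of dimension at most `n`, with `n` in the set `D` of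
degrees, and for all twists `j`. -/
def OfProjDeg (H : ℕ → ℤ → Sch k → A) (D : Set ℕ) (N : A) : Prop :=
  ∃ n ∈ D, ∃ (j : ℤ) (Y : Sch k), SmoothProj Y ∧ DimAt Y n ∧ N = H n j Y

/-- The objects `H n j Y` for the integral smooth moduli spaces `Y = modS k M` of dimension at most `n` of
planar configurations, with `n` in the set `D` of degrees, and for all twists `j`. -/
def OfModuli (H : ℕ → ℤ → Sch k → A) (D : Set ℕ) (N : A) : Prop :=
  ∃ n ∈ D, ∃ (j : ℤ) (m : ℕ) (M : Matroid (Fin 4 ⊕ Fin m)), SmoothMod k n M ∧ N = H n j (modS k M)

/-- The objects `H j (modS k M)` for the matroids in a finite list. -/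
def OfMatroids (H : ℤ → Sch k → A) (L : List Mat) (N : A) : Prop :=
  ∃ M ∈ L, ∃ j : ℤ, N = H j (modS k M.2)

end Pool.Agent.Helper10.PC
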